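import Mathlib

/-!
Rings of twisted polynomials `∑ xⁱ cᵢ` over a field `K` of any universe, `a x = x τ(a)`.

The definitions and the lemmas of this file are those of the starting file
`Pool/Agent/Results/MP_150040_al/SkewCounterexample.lean`, with fields in an arbitrary universe.
-/

set_option autoImplicit false

universe u

namespace Pool.Agent.Y181.SK

/-- A right module structure over a ring `R` (associative, identity not assumed) on an abelian
group `M`. -/
structure RightAction (R : Type u) [NonUnitalRing R] (M : Type u) [AddCommGroup M] where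
  /-- the product `m r` -/
  act : M → R → M
  add_act : ∀ m n r, act (m + n) r = act m r + act n r
  act_add : ∀ m r s, act m (r + s) = act m r + act m s
  act_mul : ∀ m r s, act m (r * s) = act (act m r) s

/-- The right module `M` is simple: `M R ≠ 0` and the only submodules are `0` and `M`. -/
def IsSimple {R : Type u} [NonUnitalRing R] {M : Type u} [AddCommGroup M]
    (a : RightAction R M) : Prop :=
  (∃ m r, a.act m r ≠ 0) ∧
    ∀ N : AddSubgroup M, (∀ n ∈ N, ∀ r, a.act n r ∈ N) → N = ⊥ ∨ N = ⊤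

/-- The right module `M` is faithful: `M r = 0` implies `r = 0`. -/
def IsFaithful {R : Type u} [NonUnitalRing R] {M : Type u} [AddCommGroup M]
    (a : RightAction R M) : Prop :=
  ∀ r, (∀ m, a.act m r = 0) → r = 0

/-- A ring is right primitive if it has a faithful simple right module. -/
def IsRightPrimitive (R : Type u) [NonUnitalRing R] : Prop :=
  ∃ (M : Type u) (_ : AddCommGroup M) (a : RightAction R M), IsSimple a ∧ IsFaithful a

/-- A ring is subdirectly indecomposable if it is nonzero and the intersection of all its nonzero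
two-sided ideals is nonzero. -/
def IsSubdirectlyIndecomposable (S : Type u) [NonUnitalRing S] : Prop :=
  Nontrivial S ∧ sInf {I : TwoSidedIdeal S | I ≠ ⊥} ≠ ⊥

section construction

variable {K : Type u} [Field K] (τ : K →+* K)

/-- The ring of additive operators of `K`, acting from the right. -/
abbrev Op (K : Type u) [Field K] : Type u := (AddMonoid.End K)ᵐᵒᵖ

/-- The value `m f` of an operator. -/
def ev (f : Op K) (m : K) : K := (MulOpposite.unop f : K →+ K) m

lemma ev_zero (m : K) : ev (0 : Op K) m = 0 := rfl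
lemma ev_one (m : K) : ev (1 : Op K) m = m := rfl
lemma ev_add (f g : Op K) (m : K) : ev (f + g) m = ev f m + ev g m := rfl
lemma ev_sub (f g : Op K) (m : K) : ev (f - g) m = ev f m - ev g m := rfl
lemma ev_mul (f g : Op K) (m : K) : ev (f * g) m = ev g (ev f m) := rfl
lemma ev_add' (f : Op K) (m n : K) : ev f (m + n) = ev f m + ev f n :=
  map_add (MulOpposite.unop f : K →+ K) m n
lemma ev_zero' (f : Op K) : ev f 0 = 0 := map_zero (MulOpposite.unop f : K →+ K)

lemma ev_ext {f g : Op K} (h : ∀ m, ev f m = ev g m) : f = g := by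
  apply MulOpposite.unop_injective
  exact AddMonoidHom.ext h

/-- The operator `m ↦ τⁱ(m) a`, that is, `xⁱ a`. -/
def mono (i : ℕ) : K →+ Op K where
  toFun a := MulOpposite.op ((AddMonoidHom.mulRight a).comp ((τ ^ i : K →+* K) : K →+ K))
  map_zero' := ev_ext (fun m => mul_zero _)
  map_add' a b := ev_ext (fun m => mul_add _ _ _)

lemma ev_mono (i : ℕ) (a m : K) : ev (mono τ i a) m = (τ ^ i) m * a := rfl

lemma mono_mul_mono (i j : ℕ) (a b : K) :
    mono τ i a * mono τ j b = mono τ (i + j) ((τ ^ j) a * b) := by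
  apply ev_ext
  intro m
  rw [ev_mul, ev_mono, ev_mono, ev_mono, map_mul, mul_assoc, add_comm i j, pow_add]
  rfl

/-- The operator with coefficients `c`. -/
noncomputable def Phi : (ℕ →₀ K) →+ Op K := Finsupp.liftAddHom (mono τ)

@[simp] lemma Phi_single (i : ℕ) (a : K) : Phi τ (Finsupp.single i a) = mono τ i a := by
  simp [Phi]

lemma ev_Phi (c : ℕ →₀ K) (m : K) :
    ev (Phi τ c) m = c.sum (fun i a => (τ ^ i) m * a) := by
  induction c using Finsupp.induction_linear with
  | zero => rw [map_zero, ev_zero, Finsupp.sum_zero_index]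
  | add f g hf hg =>
    rw [map_add, Finsupp.sum_add_index' (by simp) (by intros; rw [mul_add]), ← hf, ← hg, ev_add]
  | single i a => simp [ev_mono]

/-- `τ` has infinite order. -/
def InfOrder : Prop := Function.Injective (fun i : ℕ => τ ^ i)

variable {τ}

lemma Phi_injective (h : InfOrder τ) : Function.Injective (Phi τ) := by
  rw [injective_iff_map_eq_zero]
  intro c hc
  have h1 := linearIndependent_monoidHom K K
  have h2 : Function.Injective (fun i : ℕ => ((τ ^ i : K →+* K) : K →* K)) := by
    intro i j hij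
    apply h
    ext m
    exact DFunLike.congr_fun hij m
  have h3 := h1.comp _ h2
  rw [linearIndependent_iff] at h3
  apply h3
  funext m
  have h4 := ev_Phi τ c m
  rw [hc, ev_zero] at h4
  rw [Finsupp.linearCombination_apply, Finsupp.sum, Finset.sum_apply, Pi.zero_apply, h4,
    Finsupp.sum]
  apply Finset.sum_congr rfl
  intro i _
  exact mul_comm _ _

variable (τ)

lemma mul_mem_range (c d : ℕ →₀ K) : Phi τ c * Phi τ d ∈ (Phi τ).range := by
  induction c using Finsupp.induction_linear with
  | zero => rw [map_zero, zero_mul]; exact zero_mem _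
  | add f g hf hg => rw [map_add, add_mul]; exact add_mem hf hg
  | single i a =>
    induction d using Finsupp.induction_linear with
    | zero => rw [map_zero, mul_zero]; exact zero_mem _
    | add f g hf hg => rw [map_add, mul_add]; exact add_mem hf hg
    | single j b =>
      rw [Phi_single, Phi_single, mono_mul_mono, ← Phi_single]
      exact ⟨_, rfl⟩

/-- The ring of twisted polynomials. -/
def TwistedPoly : Subring (Op K) where
  carrier := (Phi τ).range
  mul_mem' := by
    rintro _ _ ⟨c, rfl⟩ ⟨d, rfl⟩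
    exact mul_mem_range τ c d
  one_mem' := ⟨Finsupp.single 0 1, by
    apply ev_ext
    intro m
    rw [Phi_single, ev_mono, ev_one, pow_zero, mul_one]
    rfl⟩
  add_mem' := fun ha hb => add_mem ha hb
  zero_mem' := zero_mem _
  neg_mem' := fun ha => neg_mem ha

/-- The element with given coefficients. -/
noncomputable def el (c : ℕ →₀ K) : TwistedPoly τ := ⟨Phi τ c, ⟨c, rfl⟩⟩

lemma exists_el (f : TwistedPoly τ) : ∃ c, f = el τ c := by
  obtain ⟨f, c, rfl⟩ := f
  exact ⟨c, rfl⟩

lemma el_add (c d : ℕ →₀ K) : el τ (c + d) = el τ c + el τ d := Subtype.ext (map_add _ _ _)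
lemma el_zero : el τ (0 : ℕ →₀ K) = 0 := Subtype.ext (map_zero _)

/-- The monomial `xⁱ a`. -/
noncomputable def mn (i : ℕ) (a : K) : TwistedPoly τ := el τ (Finsupp.single i a)

lemma mn_mul_mn (i j : ℕ) (a b : K) : mn τ i a * mn τ j b = mn τ (i + j) ((τ ^ j) a * b) := by
  apply Subtype.ext
  show Phi τ _ * Phi τ _ = Phi τ _
  rw [Phi_single, Phi_single, Phi_single, mono_mul_mono]

lemma mn_ne_zero (h : InfOrder τ) (i : ℕ) (a : K) (ha : a ≠ 0) : mn τ i a ≠ 0 := by
  intro h0
  have h1 : Phi τ (Finsupp.single i a) = Phi τ 0 := by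
    rw [map_zero]
    exact congrArg Subtype.val h0
  have h2 := Phi_injective h h1
  rw [Finsupp.single_eq_zero] at h2
  exact ha h2

/-- The natural right action of the ring on `K`. -/
def natAction : RightAction (TwistedPoly τ) K where
  act m f := ev f.1 m
  add_act m n f := ev_add' _ _ _
  act_add m f g := rfl
  act_mul m f g := rfl

theorem isRightPrimitive : IsRightPrimitive (TwistedPoly τ) := by
  refine ⟨K, inferInstance, natAction τ, ⟨⟨1, 1, ?_⟩, ?_⟩, ?_⟩
  · exact one_ne_zero
  · intro N hN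
    by_cases h : N = ⊥
    · exact Or.inl h
    · right
      obtain ⟨n, hn, hn0⟩ := (AddSubgroup.bot_or_exists_ne_zero N).resolve_left h
      rw [eq_top_iff]
      intro m _
      have h1 := hN n hn (mn τ 0 (n⁻¹ * m))
      have h2 : (natAction τ).act n (mn τ 0 (n⁻¹ * m)) = m := by
        show ev (Phi τ _) n = m
        rw [Phi_single, ev_mono, pow_zero]
        show n * (n⁻¹ * m) = m
        rw [← mul_assoc, mul_inv_cancel₀ hn0, one_mul]
      rwa [h2] at h1
  · intro f hf
    apply Subtype.ext
    apply ev_ext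
    exact hf

/-- Every nonzero ideal contains a power of `x`. -/
theorem exists_pow_mem (h : InfOrder τ) (J : TwoSidedIdeal (TwistedPoly τ)) (hJ : J ≠ ⊥) :
    ∃ n, mn τ n 1 ∈ J := by
  classical
  -- a nonzero element with the smallest number of terms
  have hex : ∃ k, ∃ c : ℕ →₀ K, c ≠ 0 ∧ el τ c ∈ J ∧ c.support.card = k := by
    have : ∃ f ∈ J, f ≠ 0 := by
      by_contra hno
      push Not at hno
      apply hJ
      rw [eq_bot_iff]
      intro f hf
      rw [hno f hf]
      exact TwoSidedIdeal.zero_mem _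
    obtain ⟨f, hf, hf0⟩ := this
    obtain ⟨c, rfl⟩ := exists_el τ f
    refine ⟨_, c, ?_, hf, rfl⟩
    rintro rfl
    exact hf0 (el_zero τ)
  obtain ⟨c, hc0, hcJ, hck⟩ := Nat.find_spec hex
  have hmin := fun m (hm : m < Nat.find hex) => Nat.find_min hex hm
  obtain ⟨i₀, hi₀⟩ : ∃ i, i ∈ c.support := Finsupp.support_nonempty_iff.mpr hc0
  -- all terms have the same degree
  have hsupp : ∀ i ∈ c.support, i = i₀ := by
    intro i hi
    apply h
    ext b
    by_contra hne
    -- the commutator
    let d : ℕ →₀ K := Finsupp.onFinset c.support (fun j => c j * ((τ ^ i₀) b - (τ ^ j) b)) (by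
      intro j hj
      rw [Finsupp.mem_support_iff]
      intro h0
      rw [h0, zero_mul] at hj
      exact hj rfl)
    have hd : el τ d = el τ c * mn τ 0 ((τ ^ i₀) b) - mn τ 0 b * el τ c := by
      apply Subtype.ext
      apply ev_ext
      intro m
      show ev (Phi τ d) m = ev (Phi τ c * Phi τ _ - Phi τ _ * Phi τ c) m
      rw [ev_sub, ev_mul, ev_mul, Phi_single, Phi_single, ev_mono, ev_mono, ev_Phi, ev_Phi, ev_Phi,
        Finsupp.onFinset_sum _ (by intro a; rw [mul_zero]), Finsupp.sum, Finsupp.sum, pow_zero]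
      show _ = (∑ j ∈ c.support, (τ ^ j) m * c j) * (τ ^ i₀) b -
        ∑ j ∈ c.support, (τ ^ j) (m * b) * c j
      rw [Finset.sum_mul, ← Finset.sum_sub_distrib]
      apply Finset.sum_congr rfl
      intro j _
      rw [map_mul]
      ring
    have hdJ : el τ d ∈ J := by
      rw [hd]
      exact TwoSidedIdeal.sub_mem _ (TwoSidedIdeal.mul_mem_right _ _ _ hcJ)
        (TwoSidedIdeal.mul_mem_left _ _ _ hcJ)
    have hd0 : d ≠ 0 := by
      intro h0
      have h1 : d i = 0 := by rw [h0]; rfl
      have h2 : d i = c i * ((τ ^ i₀) b - (τ ^ i) b) := rfl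
      rw [h2, mul_eq_zero, sub_eq_zero] at h1
      rcases h1 with h1 | h1
      · exact (Finsupp.mem_support_iff.mp hi) h1
      · exact hne h1.symm
    have hcard : d.support.card < Nat.find hex := by
      rw [← hck]
      apply Finset.card_lt_card
      refine ⟨Finsupp.support_onFinset_subset, ?_⟩
      intro hsub
      have h1 := hsub hi₀
      rw [Finsupp.mem_support_iff] at h1
      apply h1
      show c i₀ * ((τ ^ i₀) b - (τ ^ i₀) b) = 0
      rw [sub_self, mul_zero]
    exact hmin _ hcard ⟨d, hd0, hdJ, rfl⟩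
  have hc : c = Finsupp.single i₀ (c i₀) := by
    ext i
    by_cases hi : i = i₀
    · rw [hi, Finsupp.single_eq_same]
    · rw [Finsupp.single_eq_of_ne hi]
      by_contra hci
      exact hi (hsupp i (Finsupp.mem_support_iff.mpr hci))
  have hci : c i₀ ≠ 0 := Finsupp.mem_support_iff.mp hi₀
  refine ⟨i₀, ?_⟩
  have h1 : mn τ i₀ 1 = el τ c * mn τ 0 (c i₀)⁻¹ := by
    have h2 : el τ c = mn τ i₀ (c i₀) := by
      rw [mn, ← hc]
    rw [h2, mn_mul_mn, pow_zero, add_zero]
    show mn τ i₀ 1 = mn τ i₀ (c i₀ * (c i₀)⁻¹)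
    rw [mul_inv_cancel₀ hci]
  rw [h1]
  exact TwoSidedIdeal.mul_mem_right _ _ _ hcJ

/-- `f x = x f'` for a suitable `f'`. -/
lemma exists_swap (f : TwistedPoly τ) : ∃ f' : TwistedPoly τ, f * mn τ 1 1 = mn τ 1 1 * f' := by
  obtain ⟨c, rfl⟩ := exists_el τ f
  induction c using Finsupp.induction_linear with
  | zero => exact ⟨0, by rw [el_zero, zero_mul, mul_zero]⟩
  | add f g hf hg =>
    obtain ⟨f', hf'⟩ := hf
    obtain ⟨g', hg'⟩ := hg
    exact ⟨f' + g', by rw [el_add, add_mul, mul_add, hf', hg']⟩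
  | single i a =>
    refine ⟨mn τ i (τ a), ?_⟩
    show mn τ i a * mn τ 1 1 = _
    rw [mn_mul_mn, mn_mul_mn, pow_one, mul_one, map_one, one_mul, add_comm]

lemma mn_succ (n : ℕ) : mn τ (n + 1) 1 = mn τ n 1 * mn τ 1 1 := by
  rw [mn_mul_mn, map_one, mul_one]

/-- If `J` is a nonzero ideal with right primitive quotient, then `x` lies in `J`. -/
theorem x_mem (h : InfOrder τ) (J : TwoSidedIdeal (TwistedPoly τ)) (hJ : J ≠ ⊥)
    (hprim : IsRightPrimitive J.ringCon.Quotient) : mn τ 1 1 ∈ J := by
  obtain ⟨n, hn⟩ := exists_pow_mem τ h J hJ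
  obtain ⟨M, _, a, ⟨⟨m₀, r₀, hm₀⟩, hsub⟩, hfaith⟩ := hprim
  -- zero laws for the action
  have hz : ∀ r, a.act 0 r = 0 := fun r => by
    have := a.add_act 0 0 r
    rw [add_zero] at this
    exact left_eq_add.mp this
  have hz' : ∀ m, a.act m 0 = 0 := fun m => by
    have := a.act_add m 0 0
    rw [add_zero] at this
    exact left_eq_add.mp this
  let π : TwistedPoly τ → J.ringCon.Quotient := fun f => (f : J.ringCon.Quotient)
  have hπmul : ∀ f g, π (f * g) = π f * π g := fun f g => rfl
  have hπ0 : ∀ f, π f = 0 ↔ f ∈ J := fun f => by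
    rw [TwoSidedIdeal.mem_iff]
    exact RingCon.eq _
  have hπsurj : ∀ q, ∃ f, π f = q := fun q => Quotient.exists_rep q
  -- the submodule of elements killed by `x`
  let N : AddSubgroup M :=
    { carrier := {m | a.act m (π (mn τ 1 1)) = 0}
      add_mem' := fun {m n} hm hn => by
        show a.act (m + n) _ = 0
        rw [a.add_act, hm, hn, add_zero]
      zero_mem' := hz _
      neg_mem' := fun {m} hm => by
        show a.act (-m) _ = 0
        have h1 := a.add_act m (-m) (π (mn τ 1 1))
        rw [add_neg_cancel, hz, hm, zero_add] at h1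
        exact h1.symm }
  have hN : ∀ n ∈ N, ∀ r, a.act n r ∈ N := by
    intro m hm r
    obtain ⟨f, rfl⟩ := hπsurj r
    obtain ⟨f', hf'⟩ := exists_swap τ f
    show a.act (a.act m (π f)) (π (mn τ 1 1)) = 0
    have hm' : a.act m (π (mn τ 1 1)) = 0 := hm
    rw [← a.act_mul, ← hπmul, hf', hπmul, a.act_mul, hm', hz]
  rcases hsub N hN with hbot | htop
  · -- then powers of `x` act injectively
    exfalso
    have hinj : ∀ k m, a.act m (π (mn τ k 1)) = 0 → 0 < k → m = 0 := by
      intro k
      induction k with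
      | zero => intro m _ h0; exact absurd h0 (lt_irrefl 0)
      | succ k ih =>
        intro m hm _
        rw [mn_succ, hπmul, a.act_mul] at hm
        have h1 : a.act m (π (mn τ k 1)) ∈ N := hm
        rw [hbot, AddSubgroup.mem_bot] at h1
        rcases Nat.eq_zero_or_pos k with hk | hk
        · subst hk
          -- `x⁰ = 1` acts as the identity up to elements killed by the ring
          have h2 : a.act m (π (mn τ 1 1)) = 0 := by
            have h3 : mn τ 1 1 = mn τ 0 1 * mn τ 1 1 := by
              rw [mn_mul_mn, map_one, mul_one]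
            rw [h3, hπmul, a.act_mul, h1, hz]
          have h4 : m ∈ N := h2
          rw [hbot, AddSubgroup.mem_bot] at h4
          exact h4
        · exact ih m h1 hk
    have hkill : ∀ m, a.act m (π (mn τ (n + 1) 1)) = 0 := by
      intro m
      have h1 : mn τ (n + 1) 1 ∈ J := by
        rw [mn_succ]
        exact TwoSidedIdeal.mul_mem_right _ _ _ hn
      rw [(hπ0 _).mpr h1, hz']
    have hzero : ∀ m : M, m = 0 := fun m => hinj (n + 1) m (hkill m) (Nat.succ_pos n)
    exact hm₀ (hzero _)
  · rw [← hπ0]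
    apply hfaith
    intro m
    have : m ∈ N := by rw [htop]; trivial
    exact this

/-- The element is divisible by `xⁿ`. -/
def Div (n : ℕ) (f : TwistedPoly τ) : Prop := ∃ c : ℕ →₀ K, (∀ i < n, c i = 0) ∧ f = el τ c

lemma div_zero (n : ℕ) : Div τ n 0 := ⟨0, fun _ _ => rfl, (el_zero τ).symm⟩

lemma div_add (n : ℕ) {f g : TwistedPoly τ} (hf : Div τ n f) (hg : Div τ n g) :
    Div τ n (f + g) := by
  obtain ⟨c, hc, rfl⟩ := hf
  obtain ⟨d, hd, rfl⟩ := hg
  exact ⟨c + d, fun i hi => by rw [Finsupp.add_apply, hc i hi, hd i hi, add_zero],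
    (el_add τ c d).symm⟩

lemma div_sum (n : ℕ) (s : Finset ℕ) (F : ℕ → TwistedPoly τ) (h : ∀ i ∈ s, Div τ n (F i)) :
    Div τ n (∑ i ∈ s, F i) := by
  classical
  induction s using Finset.induction_on with
  | empty => rw [Finset.sum_empty]; exact div_zero τ n
  | insert a s ha ih =>
    rw [Finset.sum_insert ha]
    exact div_add τ n (h a (Finset.mem_insert_self a s))
      (ih (fun i hi => h i (Finset.mem_insert_of_mem hi)))

lemma div_mn (n i : ℕ) (hi : n ≤ i) (a : K) : Div τ n (mn τ i a) :=
  ⟨Finsupp.single i a, fun j hj => Finsupp.single_eq_of_ne (by omega), rfl⟩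

lemma el_eq_sum (c : ℕ →₀ K) : el τ c = ∑ i ∈ c.support, mn τ i (c i) := by
  apply Subtype.ext
  rw [AddSubmonoidClass.coe_finsetSum]
  show Phi τ c = ∑ i ∈ c.support, Phi τ (Finsupp.single i (c i))
  rw [← map_sum]
  congr 1
  exact (Finsupp.sum_single c).symm

lemma div_mul (n : ℕ) (c d : ℕ →₀ K) (h : ∀ i ∈ c.support, ∀ j ∈ d.support, n ≤ i + j) :
    Div τ n (el τ c * el τ d) := by
  rw [el_eq_sum τ c, Finset.sum_mul]
  apply div_sum
  intro i hi
  rw [el_eq_sum τ d, Finset.mul_sum]
  apply div_sum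
  intro j hj
  rw [mn_mul_mn]
  exact div_mn τ n _ (h i hi j hj) _

/-- The ideal of elements divisible by `xⁿ`. -/
def divIdeal (n : ℕ) : TwoSidedIdeal (TwistedPoly τ) :=
  TwoSidedIdeal.mk' {f | Div τ n f} (div_zero τ n) (fun hf hg => div_add τ n hf hg)
    (by
      rintro _ ⟨c, hc, rfl⟩
      exact ⟨-c, fun i hi => by rw [Finsupp.neg_apply, hc i hi, neg_zero],
        Subtype.ext (map_neg _ _).symm⟩)
    (by
      rintro f _ ⟨c, hc, rfl⟩
      obtain ⟨d, rfl⟩ := exists_el τ f
      apply div_mul
      intro i _ j hj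
      by_contra hlt
      exact (Finsupp.mem_support_iff.mp hj) (hc j (by omega)))
    (by
      rintro _ f ⟨c, hc, rfl⟩
      obtain ⟨d, rfl⟩ := exists_el τ f
      apply div_mul
      intro i hi j _
      by_contra hlt
      exact (Finsupp.mem_support_iff.mp hi) (hc i (by omega)))

lemma mem_divIdeal (n : ℕ) (f : TwistedPoly τ) : f ∈ divIdeal τ n ↔ Div τ n f := by
  rw [divIdeal, TwoSidedIdeal.mem_mk']
  rfl

lemma eq_zero_of_mem_all (h : InfOrder τ) (f : TwistedPoly τ) (hf : ∀ n, f ∈ divIdeal τ n) :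
    f = 0 := by
  obtain ⟨c, rfl⟩ := exists_el τ f
  have : c = 0 := by
    ext i
    obtain ⟨d, hd, hcd⟩ := (mem_divIdeal τ (i + 1) _).mp (hf (i + 1))
    have : c = d := Phi_injective h (congrArg Subtype.val hcd)
    rw [this]
    exact hd i (Nat.lt_succ_self i)
  rw [this, el_zero]

/-- The quotient by the zero ideal is not subdirectly indecomposable. -/
theorem not_subdirectlyIndecomposable (h : InfOrder τ) :
    ¬ IsSubdirectlyIndecomposable (⊥ : TwoSidedIdeal (TwistedPoly τ)).ringCon.Quotient := by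
  rintro ⟨_, hS⟩
  apply hS
  let π : TwistedPoly τ →ₙ+* (⊥ : TwoSidedIdeal (TwistedPoly τ)).ringCon.Quotient :=
    { toFun := fun f => (f : (⊥ : TwoSidedIdeal (TwistedPoly τ)).ringCon.Quotient)
      map_mul' := fun _ _ => rfl
      map_zero' := rfl
      map_add' := fun _ _ => rfl }
  have hinj : Function.Injective π := by
    intro f g hfg
    have h1 : (⊥ : TwoSidedIdeal (TwistedPoly τ)).ringCon f g := (RingCon.eq _).mp hfg
    rw [TwoSidedIdeal.rel_iff, TwoSidedIdeal.mem_bot, sub_eq_zero] at h1
    exact h1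
  have hsurj : Function.Surjective π := fun q => Quotient.exists_rep q
  let e : TwistedPoly τ ≃+* (⊥ : TwoSidedIdeal (TwistedPoly τ)).ringCon.Quotient :=
    RingEquiv.ofBijective π ⟨hinj, hsurj⟩
  rw [eq_bot_iff]
  intro z hz
  rw [TwoSidedIdeal.mem_sInf] at hz
  have hz2 : ∀ n, e.symm z ∈ divIdeal τ n := by
    intro n
    have h1 := hz ((divIdeal τ n).comap e.symm) (by
      intro hbot
      have h2 : e (mn τ n 1) ∈ (divIdeal τ n).comap e.symm := by
        rw [TwoSidedIdeal.mem_comap, RingEquiv.symm_apply_apply, mem_divIdeal]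
        exact div_mn τ n n le_rfl 1
      rw [hbot, TwoSidedIdeal.mem_bot] at h2
      rw [map_eq_zero_iff e e.injective] at h2
      exact mn_ne_zero τ h n 1 one_ne_zero h2)
    rwa [TwoSidedIdeal.mem_comap] at h1
  have h3 := eq_zero_of_mem_all τ h _ hz2
  rw [TwoSidedIdeal.mem_bot]
  rwa [map_eq_zero_iff e.symm e.symm.injective] at h3

/-- No family of ideals with right primitive, subdirectly indecomposable quotients has zero
intersection. -/
theorem no_family (h : InfOrder τ) (𝒥 : Set (TwoSidedIdeal (TwistedPoly τ)))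
    (h𝒥 : ∀ J ∈ 𝒥, IsRightPrimitive J.ringCon.Quotient ∧
      IsSubdirectlyIndecomposable J.ringCon.Quotient) : sInf 𝒥 ≠ ⊥ := by
  intro hbot
  have hx : mn τ 1 1 ∈ sInf 𝒥 := by
    rw [TwoSidedIdeal.mem_sInf]
    intro J hJ
    apply x_mem τ h J _ (h𝒥 J hJ).1
    rintro rfl
    exact not_subdirectlyIndecomposable τ h (h𝒥 ⊥ hJ).2
  rw [hbot, TwoSidedIdeal.mem_bot] at hx
  exact mn_ne_zero τ h 1 1 one_ne_zero hx

end construction

end Pool.Agent.Y181.SK
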