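import Mathlib
import Pool.Agent.Y181.SK.Base

/-!
Twisted polynomials: degrees, no zero divisors, principal one-sided ideals, the left module `K`.
-/

set_option autoImplicit false

universe u

namespace Pool.Agent.Y181.SK

variable {K : Type u} [Field K] (τ : K →+* K)

/-- The element has degree less than `n`. -/
def Low (n : ℕ) (f : TwistedPoly τ) : Prop := ∃ c : ℕ →₀ K, (∀ i, n ≤ i → c i = 0) ∧ f = el τ c

lemma low_zero (n : ℕ) : Low τ n 0 := ⟨0, fun _ _ => rfl, (el_zero τ).symm⟩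

lemma low_add (n : ℕ) {f g : TwistedPoly τ} (hf : Low τ n f) (hg : Low τ n g) :
    Low τ n (f + g) := by
  obtain ⟨c, hc, rfl⟩ := hf
  obtain ⟨d, hd, rfl⟩ := hg
  exact ⟨c + d, fun i hi => by rw [Finsupp.add_apply, hc i hi, hd i hi, add_zero],
    (el_add τ c d).symm⟩

lemma el_neg (c : ℕ →₀ K) : el τ (-c) = - el τ c := Subtype.ext (map_neg _ _)

lemma low_neg (n : ℕ) {f : TwistedPoly τ} (hf : Low τ n f) : Low τ n (-f) := by
  obtain ⟨c, hc, rfl⟩ := hf
  exact ⟨-c, fun i hi => by rw [Finsupp.neg_apply, hc i hi, neg_zero], (el_neg τ c).symm⟩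

lemma low_sum (n : ℕ) (s : Finset ℕ) (F : ℕ → TwistedPoly τ) (h : ∀ i ∈ s, Low τ n (F i)) :
    Low τ n (∑ i ∈ s, F i) := by
  classical
  induction s using Finset.induction_on with
  | empty => rw [Finset.sum_empty]; exact low_zero τ n
  | insert a s ha ih =>
    rw [Finset.sum_insert ha]
    exact low_add τ n (h a (Finset.mem_insert_self a s))
      (ih (fun i hi => h i (Finset.mem_insert_of_mem hi)))

lemma low_mn (n i : ℕ) (hi : i < n) (a : K) : Low τ n (mn τ i a) :=
  ⟨Finsupp.single i a, fun j hj => Finsupp.single_eq_of_ne (by omega), rfl⟩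

lemma low_mono {m n : ℕ} (h : m ≤ n) {f : TwistedPoly τ} (hf : Low τ m f) : Low τ n f := by
  obtain ⟨c, hc, rfl⟩ := hf
  exact ⟨c, fun i hi => hc i (h.trans hi), rfl⟩

lemma low_el_mul (n : ℕ) (c d : ℕ →₀ K) (h : ∀ i ∈ c.support, ∀ j ∈ d.support, i + j < n) :
    Low τ n (el τ c * el τ d) := by
  rw [el_eq_sum τ c, Finset.sum_mul]
  apply low_sum
  intro i hi
  rw [el_eq_sum τ d, Finset.mul_sum]
  apply low_sum
  intro j hj
  rw [mn_mul_mn]
  exact low_mn τ n _ (h i hi j hj) _

lemma low_mul {m n k : ℕ} (h : m + n ≤ k + 1) {f g : TwistedPoly τ} (hf : Low τ m f)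
    (hg : Low τ n g) : Low τ k (f * g) := by
  obtain ⟨c, hc, rfl⟩ := hf
  obtain ⟨d, hd, rfl⟩ := hg
  apply low_el_mul
  intro i hi j hj
  have h1 : i < m := by
    by_contra hn
    exact (Finsupp.mem_support_iff.mp hi) (hc i (by omega))
  have h2 : j < n := by
    by_contra hn
    exact (Finsupp.mem_support_iff.mp hj) (hd j (by omega))
  omega

lemma low_top (h : InfOrder τ) (n : ℕ) (a : K) (hl : Low τ n (mn τ n a)) : a = 0 := by
  obtain ⟨c, hc, he⟩ := hl
  have h1 : Finsupp.single n a = c := Phi_injective h (congrArg Subtype.val he)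
  have h2 := hc n le_rfl
  rwa [← h1, Finsupp.single_eq_same] at h2

lemma low_zero_iff {f : TwistedPoly τ} (hf : Low τ 0 f) : f = 0 := by
  obtain ⟨c, hc, rfl⟩ := hf
  have : c = 0 := by
    ext i
    exact hc i (Nat.zero_le i)
  rw [this, el_zero]

/-- a polynomial of degree at most `m` is a monomial plus a polynomial of smaller degree -/
lemma low_split {m : ℕ} {f : TwistedPoly τ} (hf : Low τ (m + 1) f) :
    ∃ a, ∃ r, Low τ m r ∧ f = mn τ m a + r := by
  obtain ⟨c, hc, rfl⟩ := hf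
  refine ⟨c m, el τ (c.erase m), ⟨c.erase m, ?_, rfl⟩, ?_⟩
  · intro i hi
    rcases Nat.eq_or_lt_of_le hi with h | h
    · rw [← h, Finsupp.erase_same]
    · rw [Finsupp.erase_ne (by omega)]
      exact hc i h
  · rw [mn, ← el_add, Finsupp.single_add_erase]

lemma exists_low (f : TwistedPoly τ) : ∃ n, Low τ n f := by
  obtain ⟨c, rfl⟩ := exists_el τ f
  refine ⟨c.support.sup id + 1, c, ?_, rfl⟩
  intro i hi
  by_contra h
  have h1 : i ≤ c.support.sup id := Finset.le_sup (f := id) (Finsupp.mem_support_iff.mpr h)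
  omega

/-- every nonzero element has a leading term -/
lemma exists_lead {f : TwistedPoly τ} (hf : f ≠ 0) :
    ∃ m a, a ≠ 0 ∧ ∃ r, Low τ m r ∧ f = mn τ m a + r := by
  classical
  have hex := exists_low τ f
  have h1 := Nat.find_spec hex
  have hmin := fun m (hm : m < Nat.find hex) => Nat.find_min hex hm
  obtain ⟨m, hm⟩ : ∃ m, Nat.find hex = m + 1 := by
    rcases Nat.eq_zero_or_pos (Nat.find hex) with h | h
    · rw [h] at h1
      exact absurd (low_zero_iff τ h1) hf
    · exact ⟨Nat.find hex - 1, by omega⟩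
  rw [hm] at h1
  obtain ⟨a, r, hr, he⟩ := low_split τ h1
  refine ⟨m, a, ?_, r, hr, he⟩
  rintro rfl
  apply hmin m (by omega)
  rw [he]
  have : mn τ m (0 : K) = 0 := by rw [mn, Finsupp.single_zero, el_zero]
  rw [this, zero_add]
  exact hr

/-- leading term of a product -/
lemma lead_mul {m n : ℕ} {a b : K} {r s : TwistedPoly τ} (hr : Low τ m r) (hs : Low τ n s) :
    ∃ t, Low τ (m + n) t ∧
      (mn τ m a + r) * (mn τ n b + s) = mn τ (m + n) ((τ ^ n) a * b) + t := by
  refine ⟨mn τ m a * s + (r * mn τ n b + r * s), ?_, ?_⟩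
  · refine low_add _ _ ?_ (low_add _ _ ?_ ?_)
    · exact low_mul τ (m := m + 1) (n := n) (by omega) (low_mn τ _ _ (Nat.lt_succ_self m) a) hs
    · exact low_mul τ (m := m) (n := n + 1) (by omega) hr (low_mn τ _ _ (Nat.lt_succ_self n) b)
    · exact low_mul τ (m := m) (n := n) (by omega) hr hs
  · rw [add_mul, mul_add, mul_add, mn_mul_mn]
    abel

lemma mn_add (i : ℕ) (a b : K) : mn τ i (a + b) = mn τ i a + mn τ i b := by
  rw [mn, mn, mn, Finsupp.single_add, el_add]

lemma mn_neg (i : ℕ) (a : K) : mn τ i (-a) = - mn τ i a := by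
  rw [mn, mn, Finsupp.single_neg, el_neg]

theorem noZeroDivisors (h : InfOrder τ) : NoZeroDivisors (TwistedPoly τ) := by
  refine ⟨fun {f g} hfg => ?_⟩
  by_contra hne
  push Not at hne
  obtain ⟨m, a, ha, r, hr, rfl⟩ := exists_lead τ hne.1
  obtain ⟨n, b, hb, s, hs, rfl⟩ := exists_lead τ hne.2
  obtain ⟨t, ht, he⟩ := lead_mul τ (a := a) (b := b) hr hs
  rw [hfg] at he
  have h1 : mn τ (m + n) ((τ ^ n) a * b) = -t := by
    rw [eq_neg_iff_add_eq_zero]; exact he.symm
  have h2 : (τ ^ n) a * b = 0 := low_top τ h (m + n) _ (by rw [h1]; exact low_neg τ _ ht)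
  rcases mul_eq_zero.1 h2 with h3 | h3
  · exact ha ((map_eq_zero _).1 h3)
  · exact hb h3

theorem isDomain (h : InfOrder τ) : IsDomain (TwistedPoly τ) := by
  have := noZeroDivisors τ h
  have : Nontrivial (TwistedPoly τ) := ⟨⟨mn τ 0 1, 0, mn_ne_zero τ h 0 1 one_ne_zero⟩⟩
  exact NoZeroDivisors.to_isDomain _

/-- one-sided ideals as additive subgroups -/
def IsRightIdeal {R : Type u} [Ring R] (I : AddSubgroup R) : Prop := ∀ f ∈ I, ∀ r, f * r ∈ I

def IsLeftIdeal {R : Type u} [Ring R] (I : AddSubgroup R) : Prop := ∀ f ∈ I, ∀ r, r * f ∈ I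

lemma eq_zero_iff_mn (i : ℕ) : mn τ i (0 : K) = 0 := by rw [mn, Finsupp.single_zero, el_zero]

/-- a nonzero element of a subgroup stable under right multiplication by scalars, of the smallest
degree and with leading coefficient one -/
lemma exists_min_right (I : AddSubgroup (TwistedPoly τ))
    (hI : ∀ f ∈ I, ∀ a : K, f * mn τ 0 a ∈ I) (h0 : ∃ f ∈ I, f ≠ 0) :
    ∃ n r, Low τ n r ∧ mn τ n 1 + r ∈ I ∧ ∀ f ∈ I, Low τ n f → f = 0 := by
  classical
  have hex : ∃ n, ∃ f ∈ I, f ≠ 0 ∧ Low τ (n + 1) f := by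
    obtain ⟨f, hf, hf0⟩ := h0
    obtain ⟨n, hn⟩ := exists_low τ f
    exact ⟨n, f, hf, hf0, low_mono τ (Nat.le_succ n) hn⟩
  have hmin := fun m (hm : m < Nat.find hex) => Nat.find_min hex hm
  obtain ⟨f, hf, hf0, hl⟩ := Nat.find_spec hex
  set n := Nat.find hex with hn
  have hlow : ∀ g ∈ I, Low τ n g → g = 0 := by
    intro g hg hgl
    by_contra hg0
    rcases Nat.eq_zero_or_pos n with h | h
    · rw [h] at hgl
      exact hg0 (low_zero_iff τ hgl)
    · refine hmin (n - 1) (by omega) ⟨g, hg, hg0, ?_⟩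
      have : n - 1 + 1 = n := by omega
      rw [this]; exact hgl
  obtain ⟨a, r, hr, he⟩ := low_split τ hl
  have ha : a ≠ 0 := by
    rintro rfl
    rw [eq_zero_iff_mn, zero_add] at he
    rw [he] at hf hf0
    exact hf0 (hlow r hf hr)
  refine ⟨n, r * mn τ 0 a⁻¹, ?_, ?_, hlow⟩
  · exact low_mul τ (m := n) (n := 1) le_rfl hr (low_mn τ 1 0 Nat.zero_lt_one _)
  · have h1 := hI f hf a⁻¹
    rw [he, add_mul, mn_mul_mn, pow_zero, add_zero] at h1
    have h2 : (1 : K →+* K) a * a⁻¹ = 1 := mul_inv_cancel₀ ha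
    rwa [h2] at h1

/-- the same with left multiplication, for surjective `τ` -/
lemma exists_min_left (hs : Function.Surjective τ) (I : AddSubgroup (TwistedPoly τ))
    (hI : ∀ f ∈ I, ∀ a : K, mn τ 0 a * f ∈ I) (h0 : ∃ f ∈ I, f ≠ 0) :
    ∃ n r, Low τ n r ∧ mn τ n 1 + r ∈ I ∧ ∀ f ∈ I, Low τ n f → f = 0 := by
  classical
  have hsn : ∀ n : ℕ, Function.Surjective (τ ^ n : K →+* K) := by
    intro n
    induction n with
    | zero => exact fun a => ⟨a, rfl⟩
    | succ n ih =>
      rw [pow_succ]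
      exact ih.comp hs
  have hex : ∃ n, ∃ f ∈ I, f ≠ 0 ∧ Low τ (n + 1) f := by
    obtain ⟨f, hf, hf0⟩ := h0
    obtain ⟨n, hn⟩ := exists_low τ f
    exact ⟨n, f, hf, hf0, low_mono τ (Nat.le_succ n) hn⟩
  have hmin := fun m (hm : m < Nat.find hex) => Nat.find_min hex hm
  obtain ⟨f, hf, hf0, hl⟩ := Nat.find_spec hex
  set n := Nat.find hex with hn
  have hlow : ∀ g ∈ I, Low τ n g → g = 0 := by
    intro g hg hgl
    by_contra hg0
    rcases Nat.eq_zero_or_pos n with h | h
    · rw [h] at hgl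
      exact hg0 (low_zero_iff τ hgl)
    · refine hmin (n - 1) (by omega) ⟨g, hg, hg0, ?_⟩
      have : n - 1 + 1 = n := by omega
      rw [this]; exact hgl
  obtain ⟨a, r, hr, he⟩ := low_split τ hl
  have ha : a ≠ 0 := by
    rintro rfl
    rw [eq_zero_iff_mn, zero_add] at he
    rw [he] at hf hf0
    exact hf0 (hlow r hf hr)
  obtain ⟨b, hb⟩ := hsn n a⁻¹
  refine ⟨n, mn τ 0 b * r, ?_, ?_, hlow⟩
  · exact low_mul τ (m := 1) (n := n) (by omega) (low_mn τ 1 0 Nat.zero_lt_one _) hr
  · have h1 := hI f hf b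
    rw [he, mul_add, mn_mul_mn, hb, inv_mul_cancel₀ ha, zero_add] at h1
    exact h1

theorem principal_right (I : AddSubgroup (TwistedPoly τ)) (hI : IsRightIdeal I) :
    ∃ g, ∀ f, f ∈ I ↔ ∃ q, f = g * q := by
  by_cases h0 : ∃ f ∈ I, f ≠ 0
  · obtain ⟨n, r, hr, hg, hlow⟩ := exists_min_right τ I (fun f hf a => hI f hf _) h0
    refine ⟨mn τ n 1 + r, fun f => ⟨?_, ?_⟩⟩
    · have key : ∀ m, ∀ f ∈ I, Low τ m f → ∃ q, f = (mn τ n 1 + r) * q := by
        intro m
        induction m with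
        | zero => intro f hf hl; exact ⟨0, by rw [low_zero_iff τ hl, mul_zero]⟩
        | succ m ih =>
          intro f hf hl
          rcases Nat.lt_or_ge m n with hmn | hmn
          · exact ⟨0, by rw [hlow f hf (low_mono τ hmn hl), mul_zero]⟩
          · obtain ⟨a, s, hs, he⟩ := low_split τ hl
            obtain ⟨t, ht, hm⟩ := lead_mul τ (m := n) (n := m - n) (a := 1) (b := a)
              hr (low_zero τ (m - n))
            rw [map_one, one_mul, add_zero, Nat.add_sub_cancel' hmn] at hm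
            rw [Nat.add_sub_cancel' hmn] at ht
            have h1 : f - (mn τ n 1 + r) * mn τ (m - n) a = s + -t := by
              rw [he, hm]; abel
            have h2 : f - (mn τ n 1 + r) * mn τ (m - n) a ∈ I :=
              I.sub_mem hf (hI _ hg _)
            obtain ⟨q, hq⟩ := ih _ h2 (by rw [h1]; exact low_add τ m hs (low_neg τ m ht))
            refine ⟨mn τ (m - n) a + q, ?_⟩
            rw [mul_add, ← hq]
            abel
      obtain ⟨m, hm⟩ := exists_low τ f
      exact fun hf => key m f hf hm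
    · rintro ⟨q, rfl⟩
      exact hI _ hg q
  · push Not at h0
    refine ⟨0, fun f => ⟨fun hf => ⟨0, by rw [h0 f hf, mul_zero]⟩, ?_⟩⟩
    rintro ⟨q, rfl⟩
    rw [zero_mul]
    exact I.zero_mem

theorem principal_left (hs : Function.Surjective τ) (I : AddSubgroup (TwistedPoly τ))
    (hI : IsLeftIdeal I) : ∃ g, ∀ f, f ∈ I ↔ ∃ q, f = q * g := by
  have hsn : ∀ n : ℕ, Function.Surjective (τ ^ n : K →+* K) := by
    intro n
    induction n with
    | zero => exact fun a => ⟨a, rfl⟩
    | succ n ih =>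
      rw [pow_succ]
      exact ih.comp hs
  by_cases h0 : ∃ f ∈ I, f ≠ 0
  · obtain ⟨n, r, hr, hg, hlow⟩ := exists_min_left τ hs I (fun f hf a => hI f hf _) h0
    refine ⟨mn τ n 1 + r, fun f => ⟨?_, ?_⟩⟩
    · have key : ∀ m, ∀ f ∈ I, Low τ m f → ∃ q, f = q * (mn τ n 1 + r) := by
        intro m
        induction m with
        | zero => intro f hf hl; exact ⟨0, by rw [low_zero_iff τ hl, zero_mul]⟩
        | succ m ih =>
          intro f hf hl
          rcases Nat.lt_or_ge m n with hmn | hmn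
          · exact ⟨0, by rw [hlow f hf (low_mono τ hmn hl), zero_mul]⟩
          · obtain ⟨a, s, hs', he⟩ := low_split τ hl
            obtain ⟨b, hb⟩ := hsn n a
            obtain ⟨t, ht, hm⟩ := lead_mul τ (m := m - n) (n := n) (a := b) (b := 1)
              (low_zero τ (m - n)) hr
            rw [hb, mul_one, add_zero, Nat.sub_add_cancel hmn] at hm
            rw [Nat.sub_add_cancel hmn] at ht
            have h1 : f - mn τ (m - n) b * (mn τ n 1 + r) = s + -t := by
              rw [he, hm]; abel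
            have h2 : f - mn τ (m - n) b * (mn τ n 1 + r) ∈ I :=
              I.sub_mem hf (hI _ hg _)
            obtain ⟨q, hq⟩ := ih _ h2 (by rw [h1]; exact low_add τ m hs' (low_neg τ m ht))
            refine ⟨mn τ (m - n) b + q, ?_⟩
            rw [add_mul, ← hq]
            abel
      obtain ⟨m, hm⟩ := exists_low τ f
      exact fun hf => key m f hf hm
    · rintro ⟨q, rfl⟩
      exact hI _ hg q
  · push Not at h0
    refine ⟨0, fun f => ⟨fun hf => ⟨0, by rw [h0 f hf, mul_zero]⟩, ?_⟩⟩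
    rintro ⟨q, rfl⟩
    rw [mul_zero]
    exact I.zero_mem

end Pool.Agent.Y181.SK
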