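import Mathlib
import Pool.Agent.Y181.SK.Ext

/-!
The left module `K` over the ring of twisted polynomials of an automorphism, and automorphisms of
infinite order over every field.
-/

set_option autoImplicit false

universe u

namespace Pool.Agent.Y181.SK

variable {K : Type u} [Field K] (τ : K →+* K)

/-- the product of coefficient families -/
noncomputable def mulc (c d : ℕ →₀ K) : ℕ →₀ K :=
  c.sum fun i a => d.sum fun j b => Finsupp.single (i + j) ((τ ^ j) a * b)

lemma mulc_zero_left (d : ℕ →₀ K) : mulc τ 0 d = 0 := by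
  rw [mulc, Finsupp.sum_zero_index]

lemma mulc_zero_right (c : ℕ →₀ K) : mulc τ c 0 = 0 := by
  rw [mulc]
  simp [Finsupp.sum_zero_index]

lemma mulc_add_left (c c' d : ℕ →₀ K) : mulc τ (c + c') d = mulc τ c d + mulc τ c' d := by
  classical
  rw [mulc, Finsupp.sum_add_index']
  · rfl
  · intro i
    simp
  · intro i a b
    rw [← Finsupp.sum_add]
    apply Finsupp.sum_congr
    intro j _
    rw [map_add, add_mul, Finsupp.single_add]

lemma mulc_add_right (c d d' : ℕ →₀ K) : mulc τ c (d + d') = mulc τ c d + mulc τ c d' := by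
  classical
  rw [mulc, mulc, mulc, ← Finsupp.sum_add]
  apply Finsupp.sum_congr
  intro i _
  rw [Finsupp.sum_add_index']
  · intro j
    simp
  · intro j a b
    rw [mul_add, Finsupp.single_add]

lemma mulc_single (i j : ℕ) (a b : K) :
    mulc τ (Finsupp.single i a) (Finsupp.single j b) = Finsupp.single (i + j) ((τ ^ j) a * b) := by
  rw [mulc, Finsupp.sum_single_index, Finsupp.sum_single_index]
  · simp
  · rw [Finsupp.sum_single_index]
    · simp
    · simp

lemma el_mulc (c d : ℕ →₀ K) : el τ (mulc τ c d) = el τ c * el τ d := by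
  induction c using Finsupp.induction_linear with
  | zero => rw [mulc_zero_left, el_zero, zero_mul]
  | add f g hf hg => rw [mulc_add_left, el_add, el_add, add_mul, hf, hg]
  | single i a =>
    induction d using Finsupp.induction_linear with
    | zero => rw [mulc_zero_right, el_zero, mul_zero]
    | add f g hf hg => rw [mulc_add_right, el_add, el_add, mul_add, hf, hg]
    | single j b =>
      rw [mulc_single]
      exact (mn_mul_mn τ i j a b).symm

/-- the coefficients of an element -/
noncomputable def cf (f : TwistedPoly τ) : ℕ →₀ K := (exists_el τ f).choose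

lemma el_cf (f : TwistedPoly τ) : el τ (cf τ f) = f := (exists_el τ f).choose_spec.symm

lemma cf_el (h : InfOrder τ) (c : ℕ →₀ K) : cf τ (el τ c) = c :=
  Phi_injective h (congrArg Subtype.val (el_cf τ (el τ c)))

lemma el_inj (h : InfOrder τ) {c d : ℕ →₀ K} (he : el τ c = el τ d) : c = d :=
  Phi_injective h (congrArg Subtype.val he)

lemma cf_add (h : InfOrder τ) (f g : TwistedPoly τ) : cf τ (f + g) = cf τ f + cf τ g := by
  apply el_inj τ h
  rw [el_cf, el_add, el_cf, el_cf]

lemma cf_mul (h : InfOrder τ) (f g : TwistedPoly τ) : cf τ (f * g) = mulc τ (cf τ f) (cf τ g) := by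
  apply el_inj τ h
  rw [el_cf, el_mulc, el_cf, el_cf]

section left

variable (σ : K →+* K)

/-- the left operator `m ↦ ∑ σⁱ(cᵢ m)` -/
noncomputable def lam (c : ℕ →₀ K) (m : K) : K := c.sum fun i a => (σ ^ i) (a * m)

lemma lam_zero_left (m : K) : lam σ 0 m = 0 := by rw [lam, Finsupp.sum_zero_index]

lemma lam_add_left (c d : ℕ →₀ K) (m : K) : lam σ (c + d) m = lam σ c m + lam σ d m := by
  rw [lam, Finsupp.sum_add_index']
  · rfl
  · intro i; rw [zero_mul, map_zero]
  · intro i a b; rw [add_mul, map_add]

lemma lam_single (i : ℕ) (a m : K) : lam σ (Finsupp.single i a) m = (σ ^ i) (a * m) := by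
  rw [lam, Finsupp.sum_single_index]
  rw [zero_mul, map_zero]

lemma lam_add_right (c : ℕ →₀ K) (m n : K) : lam σ c (m + n) = lam σ c m + lam σ c n := by
  rw [lam, lam, lam, ← Finsupp.sum_add]
  apply Finsupp.sum_congr
  intro i _
  rw [mul_add, map_add]

lemma lam_zero_right (c : ℕ →₀ K) : lam σ c 0 = 0 := by
  have := lam_add_right σ c 0 0
  rw [add_zero] at this
  exact left_eq_add.mp this

lemma lam_mulc (hστ : ∀ a, σ (τ a) = a) (c d : ℕ →₀ K) (m : K) :
    lam σ (mulc τ c d) m = lam σ c (lam σ d m) := by
  have hp : ∀ (j : ℕ) (a : K), (σ ^ j) ((τ ^ j) a) = a := by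
    intro j
    induction j with
    | zero => intro a; rfl
    | succ j ih =>
      intro a
      rw [pow_succ, pow_succ']
      show (σ ^ j) (σ (τ ((τ ^ j) a))) = a
      rw [hστ, ih]
  induction c using Finsupp.induction_linear with
  | zero => rw [mulc_zero_left, lam_zero_left, lam_zero_left]
  | add f g hf hg => rw [mulc_add_left, lam_add_left, lam_add_left, hf, hg]
  | single i a =>
    induction d using Finsupp.induction_linear with
    | zero => rw [mulc_zero_right, lam_zero_left, lam_zero_right]
    | add f g hf hg =>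
      rw [mulc_add_right, lam_add_left, lam_add_left, lam_add_right, hf, hg]
    | single j b =>
      rw [mulc_single, lam_single, lam_single, lam_single, pow_add]
      show (σ ^ i) ((σ ^ j) ((τ ^ j) a * b * m)) = _
      rw [mul_assoc, map_mul (σ ^ j), hp]

/-- the left action on `K`, as a right action of the opposite ring -/
noncomputable def leftAction (h : InfOrder τ) (hστ : ∀ a, σ (τ a) = a) :
    RightAction (TwistedPoly τ)ᵐᵒᵖ K where
  act m f := lam σ (cf τ f.unop) m
  add_act _ _ _ := lam_add_right σ _ _ _
  act_add m f g := by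
    rw [MulOpposite.unop_add, cf_add τ h, lam_add_left]
  act_mul m f g := by
    rw [MulOpposite.unop_mul, cf_mul τ h, lam_mulc τ σ hστ]

theorem isLeftPrimitive (h : InfOrder τ) (hστ : ∀ a, σ (τ a) = a) (hτσ : ∀ a, τ (σ a) = a) :
    IsRightPrimitive (TwistedPoly τ)ᵐᵒᵖ := by
  have hσ : InfOrder σ := by
    intro i j hij
    apply h
    have hp : ∀ (n : ℕ) (a : K), (τ ^ n) ((σ ^ n) a) = a := by
      intro n
      induction n with
      | zero => intro a; rfl
      | succ n ih =>
        intro a
        rw [pow_succ, pow_succ']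
        show (τ ^ n) (τ (σ ((σ ^ n) a))) = a
        rw [hτσ, ih]
    have hq : ∀ (n : ℕ) (a : K), (σ ^ n) ((τ ^ n) a) = a := by
      intro n
      induction n with
      | zero => intro a; rfl
      | succ n ih =>
        intro a
        rw [pow_succ, pow_succ']
        show (σ ^ n) (σ (τ ((τ ^ n) a))) = a
        rw [hστ, ih]
    ext a
    have h1 : (σ ^ i) ((τ ^ i) a) = (σ ^ j) ((τ ^ i) a) := by
      exact DFunLike.congr_fun hij ((τ ^ i) a)
    have h2 := congrArg (τ ^ j) h1
    rw [hq, hp] at h2
    exact h2.symm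
  refine ⟨K, inferInstance, leftAction τ σ h hστ, ⟨⟨1, 1, ?_⟩, ?_⟩, ?_⟩
  · show lam σ (cf τ (1 : TwistedPoly τ)) 1 ≠ 0
    have h1 : (1 : TwistedPoly τ) = el τ (Finsupp.single 0 1) := by
      apply Subtype.ext
      apply ev_ext
      intro m
      show ev 1 m = ev (Phi τ (Finsupp.single 0 1)) m
      rw [Phi_single, ev_mono, ev_one, pow_zero, mul_one]
      rfl
    rw [h1, cf_el τ h, lam_single, mul_one, map_one]
    exact one_ne_zero
  · intro N hN
    by_cases hb : N = ⊥
    · exact Or.inl hb
    · right
      obtain ⟨n, hn, hn0⟩ := (AddSubgroup.bot_or_exists_ne_zero N).resolve_left hb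
      rw [eq_top_iff]
      intro m _
      have h1 := hN n hn (MulOpposite.op (mn τ 0 (m * n⁻¹)))
      have h2 : (leftAction τ σ h hστ).act n (MulOpposite.op (mn τ 0 (m * n⁻¹))) = m := by
        show lam σ (cf τ (mn τ 0 (m * n⁻¹))) n = m
        rw [mn, cf_el τ h, lam_single, pow_zero]
        show m * n⁻¹ * n = m
        rw [mul_assoc, inv_mul_cancel₀ hn0, mul_one]
      rwa [h2] at h1
  · intro f hf
    have h3 : cf τ f.unop = 0 := by
      have h4 : ∀ m, lam σ (cf τ f.unop) m = 0 := hf
      -- the family `σⁱ(cᵢ)`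
      let d : ℕ →₀ K := Finsupp.onFinset (cf τ f.unop).support
        (fun i => (σ ^ i) (cf τ f.unop i)) (by
          intro i hi
          rw [Finsupp.mem_support_iff]
          intro h0
          rw [h0, map_zero] at hi
          exact hi rfl)
      have hd : Phi σ d = 0 := by
        apply ev_ext
        intro m
        rw [ev_Phi, ev_zero, Finsupp.onFinset_sum _ (by intro a; rw [mul_zero]), ← h4 m, lam,
          Finsupp.sum]
        apply Finset.sum_congr rfl
        intro i _
        rw [map_mul, mul_comm]
      have hd0 : d = 0 := Phi_injective hσ (by rw [hd, map_zero])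
      ext i
      have h5 : (σ ^ i) (cf τ f.unop i) = 0 := DFunLike.congr_fun hd0 i
      exact (map_eq_zero _).1 h5
    have h6 : f.unop = 0 := by rw [← el_cf τ f.unop, h3, el_zero]
    exact MulOpposite.unop_injective h6

end left

end Pool.Agent.Y181.SK
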