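import Mathlib
import Pool.Agent.Y181.SK.Left

/-!
Automorphisms of infinite order over every field, and the algebra structure on the ring of twisted
polynomials.
-/

set_option autoImplicit false

universe u

namespace Pool.Agent.Y181.SK

/-- over every field there is a field with two mutually inverse endomorphisms of infinite order -/
theorem exists_shift (k : Type u) [Field k] : ∃ (K : Type u) (_ : Field K) (i : k →+* K)
    (τ σ : K →+* K), (∀ c, τ (i c) = i c) ∧ (∀ a, σ (τ a) = a) ∧ (∀ a, τ (σ a) = a) ∧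
      InfOrder τ := by
  let A := MvPolynomial ℤ k
  let e : A ≃+* A := (MvPolynomial.renameEquiv k (Equiv.addRight (1 : ℤ))).toRingEquiv
  let ρ : FractionRing A ≃+* FractionRing A := IsFractionRing.ringEquivOfRingEquiv e
  have hρ : ∀ a : A, ρ (algebraMap A (FractionRing A) a) = algebraMap A (FractionRing A) (e a) :=
    fun a => IsFractionRing.ringEquivOfRingEquiv_algebraMap e a
  refine ⟨FractionRing A, inferInstance, (algebraMap A (FractionRing A)).comp MvPolynomial.C,
    ρ, ρ.symm, ?_, fun a => ρ.symm_apply_apply a, fun a => ρ.apply_symm_apply a, ?_⟩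
  · intro c
    show ρ (algebraMap A (FractionRing A) (MvPolynomial.C c)) = _
    rw [hρ]
    show algebraMap A (FractionRing A) (MvPolynomial.rename _ (MvPolynomial.C c)) = _
    rw [MvPolynomial.rename_C]
    rfl
  · intro i j hij
    have hX : ∀ n : ℕ, ((ρ : FractionRing A →+* FractionRing A) ^ n)
        (algebraMap A (FractionRing A) (MvPolynomial.X 0)) =
        algebraMap A (FractionRing A) (MvPolynomial.X (n : ℤ)) := by
      intro n
      induction n with
      | zero => rfl
      | succ n ih =>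
        rw [pow_succ']
        show ρ (((ρ : FractionRing A →+* FractionRing A) ^ n)
          (algebraMap A (FractionRing A) (MvPolynomial.X 0))) = _
        rw [ih, hρ]
        show algebraMap A (FractionRing A) (MvPolynomial.rename _ (MvPolynomial.X (n : ℤ))) = _
        rw [MvPolynomial.rename_X]
        rfl
    have h1 : algebraMap A (FractionRing A) (MvPolynomial.X (i : ℤ)) =
        algebraMap A (FractionRing A) (MvPolynomial.X (j : ℤ)) := by
      rw [← hX i, ← hX j]
      exact DFunLike.congr_fun hij _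
    have h2 : (MvPolynomial.X (i : ℤ) : A) = MvPolynomial.X (j : ℤ) :=
      IsFractionRing.injective A (FractionRing A) h1
    have h3 := MvPolynomial.X_injective h2
    exact_mod_cast h3

section alg

variable {K : Type u} [Field K] (τ : K →+* K)

lemma mn_zero_one : mn τ 0 1 = 1 := by
  apply Subtype.ext
  apply ev_ext
  intro m
  show ev (Phi τ (Finsupp.single 0 1)) m = ev 1 m
  rw [Phi_single, ev_mono, ev_one, pow_zero, mul_one]
  rfl

/-- the coefficient field -/
noncomputable def cst : K →+* TwistedPoly τ where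
  toFun a := mn τ 0 a
  map_zero' := eq_zero_iff_mn τ 0
  map_one' := mn_zero_one τ
  map_add' a b := mn_add τ 0 a b
  map_mul' a b := by
    rw [mn_mul_mn]
    rfl

lemma cst_comm (c : K) (hc : τ c = c) (f : TwistedPoly τ) : cst τ c * f = f * cst τ c := by
  have hn : ∀ n : ℕ, (τ ^ n) c = c := by
    intro n
    induction n with
    | zero => rfl
    | succ n ih =>
      rw [pow_succ]
      show (τ ^ n) (τ c) = c
      rw [hc, ih]
  obtain ⟨d, rfl⟩ := exists_el τ f
  induction d using Finsupp.induction_linear with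
  | zero => rw [el_zero, mul_zero, zero_mul]
  | add f g hf hg => rw [el_add, mul_add, add_mul, hf, hg]
  | single j b =>
    show mn τ 0 c * mn τ j b = mn τ j b * mn τ 0 c
    rw [mn_mul_mn, mn_mul_mn, hn, zero_add, add_zero, mul_comm]
    rfl

theorem not_subdirectlyIndecomposable' (h : InfOrder τ) :
    ¬ IsSubdirectlyIndecomposable (TwistedPoly τ) := by
  rintro ⟨_, hS⟩
  apply hS
  rw [eq_bot_iff]
  intro z hz
  rw [TwoSidedIdeal.mem_sInf] at hz
  have hz2 : ∀ n, z ∈ divIdeal τ n := by
    intro n
    apply hz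
    intro hbot
    have h2 : mn τ n 1 ∈ divIdeal τ n := by
      rw [mem_divIdeal]
      exact div_mn τ n n le_rfl 1
    rw [hbot, TwoSidedIdeal.mem_bot] at h2
    exact mn_ne_zero τ h n 1 one_ne_zero h2
  have h3 := eq_zero_of_mem_all τ h z hz2
  rw [TwoSidedIdeal.mem_bot]
  exact h3

end alg

/-- the ring of twisted polynomials as an algebra over a field fixed by `τ` -/
theorem main (k : Type u) [Field k] :
    ∃ (R : Type u) (_ : Ring R) (_ : Algebra k R),
      IsDomain R ∧
      (∀ I : AddSubgroup R, IsRightIdeal I → ∃ g, ∀ f, f ∈ I ↔ ∃ q, f = g * q) ∧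
      (∀ I : AddSubgroup R, IsLeftIdeal I → ∃ g, ∀ f, f ∈ I ↔ ∃ q, f = q * g) ∧
      IsRightPrimitive R ∧ IsRightPrimitive Rᵐᵒᵖ ∧
      (∃ x : R, x ≠ 0 ∧ ∀ J : TwoSidedIdeal R, J ≠ ⊥ →
        IsRightPrimitive J.ringCon.Quotient → x ∈ J) ∧
      ¬ IsSubdirectlyIndecomposable R ∧
      ∀ 𝒥 : Set (TwoSidedIdeal R), (∀ J ∈ 𝒥, IsRightPrimitive J.ringCon.Quotient ∧
        IsSubdirectlyIndecomposable J.ringCon.Quotient) → sInf 𝒥 ≠ ⊥ := by
  obtain ⟨K, _, i, τ, σ, hi, hστ, hτσ, hinf⟩ := exists_shift k
  let al : Algebra k (TwistedPoly τ) := RingHom.toAlgebra' ((cst τ).comp i)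
    (fun c f => cst_comm τ (i c) (hi c) f)
  exact ⟨TwistedPoly τ, inferInstance, al, isDomain τ hinf,
    fun I hI => principal_right τ I hI,
    fun I hI => principal_left τ (fun a => ⟨σ a, hτσ a⟩) I hI,
    isRightPrimitive τ, isLeftPrimitive τ σ hinf hστ hτσ,
    ⟨mn τ 1 1, mn_ne_zero τ hinf 1 1 one_ne_zero, fun J hJ hp => x_mem τ hinf J hJ hp⟩,
    not_subdirectlyIndecomposable' τ hinf, no_family τ hinf⟩

end Pool.Agent.Y181.SK
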